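import Pool.Agent.Helper98.DISC.GoalsB

/-! # Packet DISC FN (MP_105b7b_pr): the functions `F_m` are real and nonnegative on `(0, π)` -/

set_option autoImplicit false

open MeasureTheory Set Filter Topology

noncomputable section

namespace Pool.Agent.Helper93.DISC

open Pool.Agent.Helper98.DISC

theorem sin_mul_Fm {q : ℕ} (h : ∀ φ ∈ Ioo (0 : ℝ) Real.pi, (Fm q φ).im = 0) {τ : ℝ} (h0 : 0 ≤ τ)
    (h1 : τ ≤ Real.pi) : (Real.sin τ : ℂ) * Fm q τ = ((4 ^ q * hm q τ : ℝ) : ℂ) := by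
  rcases eq_or_lt_of_le h0 with rfl | h0
  · simp [hm]
  rcases eq_or_lt_of_le h1 with rfl | h1
  · simp [hm]
  have hs : 0 < Real.sin τ := Real.sin_pos_of_pos_of_lt_pi h0 h1
  have him := h τ ⟨h0, h1⟩
  have hF : Fm q τ = ((Fm q τ).re : ℂ) := Complex.ext rfl (by simp [him])
  rw [hF, ← Complex.ofReal_mul]
  congr 1
  have e : (2 * Real.sin τ) ^ (2 * q) = 4 ^ q * Real.sin τ ^ (2 * q) := by
    rw [mul_pow, pow_mul 2 2 q]
    norm_num
  unfold hm fm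
  rw [e]
  field_simp
  ring

theorem hm_nonneg {q : ℕ} (h : ∀ φ ∈ Ioo (0 : ℝ) Real.pi, 0 ≤ (Fm q φ).re) {τ : ℝ} (h0 : 0 ≤ τ)
    (h1 : τ ≤ Real.pi) : 0 ≤ hm q τ := by
  rcases eq_or_lt_of_le h0 with rfl | h0
  · simp [hm]
  rcases eq_or_lt_of_le h1 with rfl | h1
  · simp [hm]
  have hs : 0 < Real.sin τ := Real.sin_pos_of_pos_of_lt_pi h0 h1
  have := h τ ⟨h0, h1⟩
  unfold hm fm
  positivity

/-- the right side -/
def W (m : ℕ) (θ : ℝ) : ℝ := ∑ x ∈ Finset.HasAntidiagonal.antidiagonal (m - 1),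
  ∫ τ in (0 : ℝ)..θ, hm x.1 (θ - τ) * hm x.2 τ

theorem ode' (hO : S_ODE) {m : ℕ} (hm1 : 1 ≤ m)
    (h : ∀ p < m, ∀ φ ∈ Ioo (0 : ℝ) Real.pi, (Fm p φ).im = 0) {φ : ℝ} (h0 : 0 ≤ φ)
    (h1 : φ ≤ Real.pi) :
    (Real.sin φ : ℂ) * deriv (Fm m) φ - 2 * m * (Real.cos φ : ℂ) * Fm m φ =
      ((4 ^ m * W m φ : ℝ) : ℂ) := by
  have e := hO.2.2 m φ hm1
  have e2 : ∀ x ∈ Finset.HasAntidiagonal.antidiagonal (m - 1),
      ∫ τ in (0 : ℝ)..φ, ((Real.sin (φ - τ) : ℂ) * Fm x.1 (φ - τ)) * ((Real.sin τ : ℂ) * Fm x.2 τ) =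
      ((4 ^ (m - 1) * ∫ τ in (0 : ℝ)..φ, hm x.1 (φ - τ) * hm x.2 τ : ℝ) : ℂ) := by
    intro x hx
    rw [Finset.HasAntidiagonal.mem_antidiagonal] at hx
    have hx1 : x.1 < m := by omega
    have hx2 : x.2 < m := by omega
    rw [← intervalIntegral.integral_const_mul, ← intervalIntegral.integral_ofReal]
    refine intervalIntegral.integral_congr fun τ hτ => ?_
    rw [uIcc_of_le h0] at hτ
    show ((Real.sin (φ - τ) : ℂ) * Fm x.1 (φ - τ)) * ((Real.sin τ : ℂ) * Fm x.2 τ) =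
      ((4 ^ (m - 1) * (hm x.1 (φ - τ) * hm x.2 τ) : ℝ) : ℂ)
    rw [sin_mul_Fm (h x.1 hx1) (sub_nonneg.2 hτ.2) (by linarith [hτ.1]),
      sin_mul_Fm (h x.2 hx2) hτ.1 (hτ.2.trans h1), ← hx, pow_add]
    push_cast
    ring
  rw [Finset.sum_congr rfl e2] at e
  rw [e, W]
  obtain ⟨k, rfl⟩ : ∃ k, m = k + 1 := ⟨m - 1, by omega⟩
  rw [Nat.add_sub_cancel]
  push_cast
  rw [Finset.mul_sum, Finset.mul_sum]
  refine Finset.sum_congr rfl fun x _ => ?_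
  ring

theorem W_nonneg {m : ℕ} (hm1 : 1 ≤ m)
    (h : ∀ p < m, ∀ φ ∈ Ioo (0 : ℝ) Real.pi, 0 ≤ (Fm p φ).re) {φ : ℝ} (h0 : 0 ≤ φ)
    (h1 : φ ≤ Real.pi) : 0 ≤ W m φ := by
  refine Finset.sum_nonneg fun x hx => ?_
  rw [Finset.HasAntidiagonal.mem_antidiagonal] at hx
  refine intervalIntegral.integral_nonneg h0 fun τ hτ => ?_
  exact mul_nonneg (hm_nonneg (h x.1 (by omega)) (sub_nonneg.2 hτ.2) (by linarith [hτ.1]))
    (hm_nonneg (h x.2 (by omega)) hτ.1 (hτ.2.trans h1))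

/-- the quotient -/
def G (m : ℕ) (φ : ℝ) : ℂ := ((((2 * Real.sin φ) ^ (2 * m))⁻¹ : ℝ) : ℂ) * Fm m φ

theorem G_re (m : ℕ) (φ : ℝ) : (G m φ).re = fm m φ := by
  unfold G fm
  rw [Complex.re_ofReal_mul]
  ring

theorem G_zero {m : ℕ} (hm1 : 1 ≤ m) : G m 0 = 0 := by
  unfold G
  rw [Real.sin_zero, mul_zero, zero_pow (by omega), inv_zero, Complex.ofReal_zero, zero_mul]

theorem G_deriv (hO : S_ODE) {m : ℕ} (hm1 : 1 ≤ m)
    (h : ∀ p < m, ∀ φ ∈ Ioo (0 : ℝ) Real.pi, (Fm p φ).im = 0) {φ : ℝ} (h0 : 0 < φ)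
    (h1 : φ < Real.pi) :
    HasDerivAt (G m) (((W m φ / Real.sin φ ^ (2 * m + 1) : ℝ)) : ℂ) φ := by
  have hs : 0 < Real.sin φ := Real.sin_pos_of_pos_of_lt_pi h0 h1
  have hF : HasDerivAt (Fm m) (deriv (Fm m) φ) φ := (hO.2.1 m φ).hasDerivAt
  have hu : HasDerivAt (fun φ : ℝ => ((2 * Real.sin φ) ^ (2 * m))⁻¹)
      (-((2 * m : ℕ) * (2 * Real.sin φ) ^ (2 * m - 1) * (2 * Real.cos φ)) /
        ((2 * Real.sin φ) ^ (2 * m)) ^ 2) φ := by
    have h3 : HasDerivAt (fun φ : ℝ => 2 * Real.sin φ) (2 * Real.cos φ) φ :=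
      (Real.hasDerivAt_sin φ).const_mul 2
    have h4 := (h3.pow (2 * m)).inv (pow_ne_zero _ (by positivity))
    exact h4
  have hG := hu.ofReal_comp.mul hF
  have e := ode' hO hm1 h h0.le h1.le
  refine hG.congr_deriv ?_
  have hs' : (Real.sin φ : ℂ) ≠ 0 := Complex.ofReal_ne_zero.2 hs.ne'
  have e1 : deriv (Fm m) φ = (((4 ^ m * W m φ : ℝ) : ℂ) + 2 * m * (Real.cos φ : ℂ) * Fm m φ) /
      (Real.sin φ : ℂ) := by
    rw [eq_div_iff hs', ← e]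
    ring
  rw [e1]
  push_cast
  simp only [← Complex.ofReal_sin, ← Complex.ofReal_cos]
  generalize (Real.sin φ : ℂ) = S at hs' ⊢
  generalize (Real.cos φ : ℂ) = T
  generalize (W m φ : ℂ) = w
  generalize Fm m φ = F
  have e4 : (2 * S) ^ (2 * m) = 4 ^ m * S ^ (2 * m) := by
    rw [mul_pow, pow_mul 2 2 m]
    norm_num
  have e3 : (2 * S) ^ (2 * m - 1) * (2 * S) = 4 ^ m * S ^ (2 * m) := by
    rw [← e4, ← pow_succ]
    congr 1
    omega
  have e5 : (2 * S) ^ (2 * m - 1) = 4 ^ m * S ^ (2 * m) / (2 * S) := by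
    rw [eq_div_iff (mul_ne_zero two_ne_zero hs'), e3]
  have hY : S ^ (2 * m) ≠ 0 := pow_ne_zero _ hs'
  have hc : (4 : ℂ) ^ m ≠ 0 := pow_ne_zero _ (by norm_num)
  rw [e5, e4, pow_succ S]
  generalize S ^ (2 * m) = Y at hY ⊢
  generalize (4 : ℂ) ^ m = c at hc ⊢
  field_simp
  ring

theorem G_bound (hV : S_VAN) {m : ℕ} (hm1 : 1 ≤ m) : ∃ C : ℝ, ∀ φ ∈ Icc (0 : ℝ) 1,
    ‖G m φ‖ ≤ C * φ := by
  obtain ⟨C, hC⟩ := hV m hm1
  refine ⟨C, fun φ hφ => ?_⟩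
  rcases eq_or_lt_of_le hφ.1 with h0 | h0
  · rw [← h0, G_zero hm1, norm_zero, mul_zero]
  have h1 := hC φ hφ
  have hpi : 3 < Real.pi := Real.pi_gt_three
  have hpi4 : Real.pi < 4 := Real.pi_lt_four
  have h2 : 2 / Real.pi * φ ≤ Real.sin φ := Real.mul_le_sin h0.le (by linarith [hφ.2])
  have h3 : φ ≤ 2 * Real.sin φ := by
    have : 1 / 2 ≤ 2 / Real.pi := by
      rw [div_le_div_iff₀ (by norm_num) (by linarith)]
      linarith
    nlinarith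
  have h4 : φ ^ (2 * m) ≤ (2 * Real.sin φ) ^ (2 * m) := pow_le_pow_left₀ h0.le h3 _
  have h5 : 0 < φ ^ (2 * m) := by positivity
  unfold G
  rw [norm_mul, Complex.norm_real, norm_inv, Real.norm_of_nonneg (h5.le.trans h4)]
  have h6 : ((2 * Real.sin φ) ^ (2 * m))⁻¹ ≤ (φ ^ (2 * m))⁻¹ := inv_anti₀ h5 h4
  calc ((2 * Real.sin φ) ^ (2 * m))⁻¹ * ‖Fm m φ‖ ≤ (φ ^ (2 * m))⁻¹ * (C * φ ^ (2 * m + 1)) :=
        mul_le_mul h6 h1 (norm_nonneg _) (by positivity)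
    _ = C * φ := by
        rw [pow_succ]
        field_simp

theorem G_cont (hO : S_ODE) (hV : S_VAN) {m : ℕ} (hm1 : 1 ≤ m) {φ : ℝ}
    (h1 : φ < Real.pi) : ContinuousOn (G m) (Icc 0 φ) := by
  intro θ hθ
  rcases eq_or_lt_of_le hθ.1 with h0 | h0
  · obtain ⟨C, hC⟩ := G_bound hV hm1
    rw [← h0]
    unfold ContinuousWithinAt
    rw [G_zero hm1]
    refine squeeze_zero_norm' (a := fun θ => C * θ) ?_ ?_
    · have : Iic (1 : ℝ) ∈ 𝓝[Icc 0 φ] (0 : ℝ) :=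
        mem_nhdsWithin_of_mem_nhds (Iic_mem_nhds zero_lt_one)
      filter_upwards [self_mem_nhdsWithin, this] with x hx hx1
      exact hC x ⟨hx.1, hx1⟩
    · have h2 : Tendsto (fun θ : ℝ => C * θ) (𝓝 0) (𝓝 (C * 0)) :=
        (continuous_const.mul continuous_id).tendsto 0
      rw [mul_zero] at h2
      exact h2.mono_left nhdsWithin_le_nhds
  · have hs : 0 < Real.sin θ := Real.sin_pos_of_pos_of_lt_pi h0 (hθ.2.trans_lt h1)
    have hF : ContinuousAt (Fm m) θ := (hO.2.1 m θ).continuousAt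
    have h2 : ContinuousAt (fun θ : ℝ => ((2 * Real.sin θ) ^ (2 * m))⁻¹) θ := by
      refine ContinuousAt.inv₀ ?_ (pow_ne_zero _ (by positivity))
      exact (continuous_const.mul Real.continuous_sin).continuousAt.pow _
    have h3 : ContinuousAt (fun θ : ℝ => ((((2 * Real.sin θ) ^ (2 * m))⁻¹ : ℝ) : ℂ)) θ :=
      Complex.continuous_ofReal.continuousAt.comp h2
    exact (h3.mul hF).continuousWithinAt

theorem step (hO : S_ODE) (hV : S_VAN) {m : ℕ} (hm1 : 1 ≤ m)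
    (h : ∀ p < m, ∀ φ ∈ Ioo (0 : ℝ) Real.pi, (Fm p φ).im = 0 ∧ 0 ≤ (Fm p φ).re) {φ : ℝ}
    (hφ : φ ∈ Ioo (0 : ℝ) Real.pi) :
    ((Fm m φ).im = 0 ∧ 0 ≤ (Fm m φ).re) ∧
    IntervalIntegrable (fun θ => W m θ / Real.sin θ ^ (2 * m + 1)) volume 0 φ ∧
    fm m φ = ∫ θ in (0 : ℝ)..φ, W m θ / Real.sin θ ^ (2 * m + 1) := by
  have hi : ∀ p < m, ∀ φ ∈ Ioo (0 : ℝ) Real.pi, (Fm p φ).im = 0 := fun p hp φ hφ => (h p hp φ hφ).1
  have hr : ∀ p < m, ∀ φ ∈ Ioo (0 : ℝ) Real.pi, 0 ≤ (Fm p φ).re :=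
    fun p hp φ hφ => (h p hp φ hφ).2
  have hc := G_cont hO hV hm1 hφ.2
  have hd : ∀ θ ∈ Ioo 0 φ, HasDerivAt (G m) (((W m θ / Real.sin θ ^ (2 * m + 1) : ℝ)) : ℂ) θ :=
    fun θ hθ => G_deriv hO hm1 hi hθ.1 (hθ.2.trans hφ.2)
  have hs : 0 < Real.sin φ := Real.sin_pos_of_pos_of_lt_pi hφ.1 hφ.2
  have hw : ∀ θ ∈ Ioo 0 φ, 0 ≤ W m θ / Real.sin θ ^ (2 * m + 1) := by
    intro θ hθ
    have h3 := W_nonneg hm1 hr hθ.1.le (hθ.2.trans hφ.2).le
    have h4 : 0 < Real.sin θ := Real.sin_pos_of_pos_of_lt_pi hθ.1 (hθ.2.trans hφ.2)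
    positivity
  have hcr : ContinuousOn (fun θ => (G m θ).re) (Icc 0 φ) :=
    Complex.continuous_re.comp_continuousOn hc
  have hci : ContinuousOn (fun θ => (G m θ).im) (Icc 0 φ) :=
    Complex.continuous_im.comp_continuousOn hc
  have hdr : ∀ θ ∈ Ioo 0 φ, HasDerivAt (fun θ => (G m θ).re)
      (W m θ / Real.sin θ ^ (2 * m + 1)) θ := by
    intro θ hθ
    have := Complex.reCLM.hasFDerivAt.comp_hasDerivAt θ (hd θ hθ)
    exact this
  have hdi : ∀ θ ∈ Ioo 0 φ, HasDerivAt (fun θ => (G m θ).im) 0 θ := by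
    intro θ hθ
    have := Complex.imCLM.hasFDerivAt.comp_hasDerivAt θ (hd θ hθ)
    exact this
  have hint : IntervalIntegrable (fun θ => W m θ / Real.sin θ ^ (2 * m + 1)) volume 0 φ := by
    rw [intervalIntegrable_iff_integrableOn_Ioc_of_le hφ.1.le]
    exact intervalIntegral.integrableOn_deriv_of_nonneg hcr hdr hw
  have hFTC := intervalIntegral.integral_eq_sub_of_hasDerivAt_of_le hφ.1.le hcr hdr hint
  have hFTCi := intervalIntegral.integral_eq_sub_of_hasDerivAt_of_le hφ.1.le hci hdi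
    (intervalIntegrable_const (c := (0 : ℝ)))
  rw [G_zero hm1, Complex.zero_re, sub_zero, G_re] at hFTC
  rw [G_zero hm1, Complex.zero_im, sub_zero, intervalIntegral.integral_zero] at hFTCi
  have hu : 0 < ((2 * Real.sin φ) ^ (2 * m))⁻¹ := by positivity
  refine ⟨⟨?_, ?_⟩, hint, hFTC.symm⟩
  · unfold G at hFTCi
    rw [Complex.im_ofReal_mul] at hFTCi
    rcases mul_eq_zero.1 hFTCi.symm with h3 | h3
    · exact absurd h3 hu.ne'
    · exact h3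
  · have h3 : 0 ≤ fm m φ := by
      rw [← hFTC]
      refine intervalIntegral.integral_nonneg_of_ae_restrict hφ.1.le ?_
      rw [← restrict_Ioo_eq_restrict_Icc]
      filter_upwards [ae_restrict_mem measurableSet_Ioo] with θ hθ
      exact hw θ hθ
    unfold fm at h3
    have h4 : 0 < (2 * Real.sin φ) ^ (2 * m) := by positivity
    have := mul_nonneg h3 h4.le
    rwa [div_mul_cancel₀ _ h4.ne'] at this

theorem all (hO : S_ODE) (hV : S_VAN) (m : ℕ) : ∀ φ ∈ Ioo (0 : ℝ) Real.pi,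
    (Fm m φ).im = 0 ∧ 0 ≤ (Fm m φ).re := by
  induction m using Nat.strong_induction_on with
  | _ m ih =>
    intro φ hφ
    rcases Nat.eq_zero_or_pos m with rfl | hm1
    · rw [hO.1 φ]
      simp
    · exact (step hO hV hm1 ih hφ).1

theorem fn (hO : S_ODE) (hV : S_VAN) : S_FN := by
  have hall := all hO hV
  have hpi : ∀ m, (Fm m Real.pi).im = 0 := by
    intro m
    have hc : ContinuousAt (fun φ => (Fm m φ).im) Real.pi :=
      Complex.continuous_im.continuousAt.comp (hO.2.1 m Real.pi).continuousAt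
    have h1 : Tendsto (fun φ => (Fm m φ).im) (𝓝[<] Real.pi) (𝓝 (Fm m Real.pi).im) :=
      hc.tendsto.mono_left nhdsWithin_le_nhds
    have h2 : Tendsto (fun φ => (Fm m φ).im) (𝓝[<] Real.pi) (𝓝 0) := by
      refine tendsto_const_nhds.congr' ?_
      filter_upwards [Ioo_mem_nhdsLT Real.pi_pos] with φ hφ
      exact (hall m φ hφ).1.symm
    exact tendsto_nhds_unique h1 h2
  refine ⟨hall, hpi, fun m => ?_, fun m hm1 φ hφ => ?_, fun m hm1 => ?_⟩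
  · intro θ hθ
    have hs : 0 < Real.sin θ := Real.sin_pos_of_pos_of_lt_pi hθ.1 hθ.2
    have hF : ContinuousAt (Fm m) θ := (hO.2.1 m θ).continuousAt
    have h2 : ContinuousAt (fun θ => (Fm m θ).re) θ := Complex.continuous_re.continuousAt.comp hF
    have h3 : ContinuousAt (fun θ : ℝ => (2 * Real.sin θ) ^ (2 * m)) θ :=
      (continuous_const.mul Real.continuous_sin).continuousAt.pow _
    exact (h2.div h3 (pow_ne_zero _ (by positivity))).continuousWithinAt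
  · exact (step hO hV hm1 (fun p _ => hall p) hφ).2
  · have e := ode' hO hm1 (fun p _ φ hφ => (hall p φ hφ).1) Real.pi_pos.le le_rfl
    rw [Real.sin_pi, Real.cos_pi] at e
    have e1 := congrArg Complex.re e
    have hF : Fm m Real.pi = ((Fm m Real.pi).re : ℂ) := Complex.ext rfl (by simp [hpi m])
    rw [hF] at e1
    have e2 : 2 * (m : ℝ) * (Fm m Real.pi).re = 4 ^ m * W m Real.pi := by
      have e3 : ((Complex.ofReal 0) * deriv (Fm m) Real.pi - 2 * (m : ℂ) * ((-1 : ℝ) : ℂ) *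
          ((Fm m Real.pi).re : ℂ)) = ((2 * (m : ℝ) * (Fm m Real.pi).re : ℝ) : ℂ) := by
        push_cast
        ring
      rw [e3, Complex.ofReal_re, Complex.ofReal_re] at e1
      exact e1
    have hm0 : (0 : ℝ) < m := by exact_mod_cast hm1
    show (Fm m Real.pi).re = 4 ^ m / (2 * m) * W m Real.pi
    field_simp
    linarith

end Pool.Agent.Helper93.DISC
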